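import Mathlib

/-!
# Left-reflection sets, joins in the right weak order, Bruhat paths

The notions of the problem, for a Coxeter system `cs` on a group `W`, with an arbitrary set `U`
of elements in place of a pair `u, v`.
-/

set_option autoImplicit false

namespace Pool.Agent.Lib_MP_272625_ins

variable {B W : Type*} [Group W] {M : CoxeterMatrix B} (cs : CoxeterSystem M W)

/-- The left-reflection set `T_L(w)`: the reflections `t` with `ℓ(t w) < ℓ(w)`. -/
def leftReflections (w : W) : Set W :=
  {t | cs.IsReflection t ∧ cs.length (t * w) < cs.length w}

/-- The right weak order, characterised by inclusion of the left-reflection sets. -/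
def WeakLE (x y : W) : Prop := leftReflections cs x ⊆ leftReflections cs y

/-- `j` is the join (least upper bound) of the set `U` in the right weak order. -/
def IsJoin (U : Set W) (j : W) : Prop :=
  (∀ u ∈ U, WeakLE cs u j) ∧ ∀ w, (∀ u ∈ U, WeakLE cs u w) → WeakLE cs j w

/-- The Bruhat graph has an edge `x → y` labelled `t`: `t` is a reflection, `y = t x` and
`ℓ(x) < ℓ(y)`. -/
def Edge (t x y : W) : Prop :=
  cs.IsReflection t ∧ y = t * x ∧ cs.length x < cs.length y

/-- `V(U)`: the vertices of the directed paths of the Bruhat graph that start at the identity and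
whose labels all lie in the union of the sets `T_L(u)`, `u ∈ U`. -/
def pathVertices (U : Set W) : Set W :=
  {x | Relation.ReflTransGen (fun y z => ∃ u ∈ U, ∃ t ∈ leftReflections cs u, Edge cs t y z) 1 x}

/-- The Bruhat order: `x ≤ y` if some directed path of the Bruhat graph leads from `x` to `y`. -/
def BruhatLE (x y : W) : Prop :=
  Relation.ReflTransGen (fun a b => ∃ t, Edge cs t a b) x y

end Pool.Agent.Lib_MP_272625_ins
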