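import Pool.Agent.Lib_MP_272625_co.Final
import Pool.Agent.Lib_MP_272625_ins.Defs

/-!
# Joins of arbitrary sets and the description of the path vertices
-/

set_option autoImplicit false

namespace Pool.Agent.Lib_MP_272625_ins

open CoxeterSystem Pool.Agent.LibMP272625

variable {B W : Type*} [Group W] {M : CoxeterMatrix B} (cs : CoxeterSystem M W)

theorem leftReflections_eq (w : W) : leftReflections cs w = N cs w := rfl

theorem mem_of_br {w t : W} (ht : cs.IsReflection t) (h : Br cs (w⁻¹ * t) w⁻¹) : t ∈ N cs w := by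
  refine ⟨ht, ?_⟩
  have e : cs.length (w⁻¹ * t) = cs.length (t * w) := by
    rw [← cs.length_inv (w⁻¹ * t), mul_inv_rev, inv_inv, ht.inv]
  have h1 := Br.length_le cs h
  rw [length_inv, e] at h1
  rcases lt_or_eq_of_le h1 with h2 | h2
  · exact h2
  · exfalso
    have h3 := Br.eq_of_length cs h (by rw [length_inv, e]; exact h2.ge)
    have h4 : t = 1 := by simpa using h3
    have h5 := ht.odd_length
    rw [h4] at h5
    simp at h5

theorem br_of_mem {w t : W} (h : t ∈ N cs w) : Br cs (w⁻¹ * t) w⁻¹ := by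
  have ht : cs.IsReflection t := h.1
  refine Relation.ReflTransGen.single ⟨w⁻¹ * t * w, by simpa using ht.conj w⁻¹, ?_, ?_⟩
  · have : w⁻¹ * t * w * (w⁻¹ * t) = w⁻¹ * (t * t) := by group
    rw [this, ht.mul_self, mul_one]
  · have e : cs.length (w⁻¹ * t) = cs.length (t * w) := by
      rw [← cs.length_inv (w⁻¹ * t), mul_inv_rev, inv_inv, ht.inv]
    rw [e, length_inv]
    exact h.2

/-- Vertices of paths with labels in `T_L(u)`, `u ∈ U`, are below `j` in the twisted sense. -/
theorem br_of_path {U : Set W} {j : W} (hU : ∀ u ∈ U, N cs u ⊆ N cs j) {x : W}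
    (hx : x ∈ pathVertices cs U) : Br cs (j⁻¹ * x) j⁻¹ := by
  change Relation.ReflTransGen _ _ _ at hx
  induction hx with
  | refl => rw [mul_one]; exact Relation.ReflTransGen.refl
  | @tail y z _ hyz ih =>
    obtain ⟨u, hu, r, hru, hrR, hz, hlt⟩ := hyz
    have hrj : r ∈ N cs j := hU u hu hru
    have hry : r ∉ N cs y := by
      intro h
      have := h.2
      rw [← hz] at this
      omega
    have h1 := mem_N_mul cs j (j⁻¹ * y) r
    have e1 : j * (j⁻¹ * y) = y := by group
    rw [e1] at h1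
    have h2 : j⁻¹ * r * j ∈ N cs (j⁻¹ * y) := by tauto
    have e2 : j⁻¹ * r * j * (j⁻¹ * y) = j⁻¹ * z := by rw [hz]; group
    have h3 := step_of_mem cs h2
    rw [e2] at h3
    exact Relation.ReflTransGen.head h3 ih

variable [Finite W]

/-- Main step, for a set of elements. -/
theorem main_step' {w z : W} {A : Set W} (hA : ∀ a ∈ A, N cs a ⊆ N cs w)
    (hab : ∀ i : B, cs.simple i ∈ N cs w → ∃ a ∈ A, cs.simple i ∉ N cs a)
    (hzw : Br cs z w) (hne : z ≠ w) :
    ∃ r ∈ N cs w, (∃ a ∈ A, r ∉ N cs a) ∧ r ∉ N cs z ∧ Br cs (r * z) w := by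
  classical
  have hlt : cs.length z < cs.length w := by
    by_contra h
    exact hne (Br.eq_of_length cs hzw (by omega))
  have hex : ∃ n : ℕ, ∃ x : W, N cs x ⊆ N cs w ∧ ¬ N cs x ⊆ N cs z ∧ cs.length x = n := by
    refine ⟨_, w, subset_rfl, ?_, rfl⟩
    intro h
    have := length_le_of_N_subset cs h
    omega
  obtain ⟨q, hqw, hqz, hql⟩ := Nat.find_spec hex
  have hmin : ∀ x, N cs x ⊆ N cs w → ¬ N cs x ⊆ N cs z → cs.length q ≤ cs.length x := by
    intro x h1 h2
    rw [hql]
    exact Nat.find_min' hex ⟨x, h1, h2, rfl⟩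
  have hq1 : q ≠ 1 := by
    rintro rfl
    apply hqz
    intro t ht
    exact absurd ht (N_one cs t)
  obtain ⟨i, hi⟩ := cs.exists_rightDescent_of_ne_one hq1
  have hi' : cs.length (q * cs.simple i) < cs.length q := hi
  have hstar := star cs hqw hqz hmin hi'
  set β := q * cs.simple i * q⁻¹ with hβdef
  have hβ : β ∈ N cs q := (conj_simple_mem_N_iff cs).2 hi'
  have hp : ∀ t, t ∈ N cs (q * cs.simple i) ↔ ¬ (t ∈ N cs q ↔ t = β) := by
    intro t; exact mem_N_mul_simple cs
  have hpq : N cs (q * cs.simple i) ⊆ N cs q := by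
    intro t ht
    rw [hp] at ht
    by_contra hc
    have : t = β := by tauto
    exact hc (this ▸ hβ)
  have hpz : N cs (q * cs.simple i) ⊆ N cs z := by
    by_contra hc
    have := hmin _ (hpq.trans hqw) hc
    omega
  have hβz : β ∉ N cs z := by
    intro h
    apply hqz
    intro t ht
    by_cases h2 : t = β
    · rw [h2]; exact h
    · apply hpz; rw [hp]; tauto
  have e : q * cs.simple i * cs.simple i * (q * cs.simple i)⁻¹ = β := by
    rw [hβdef, mul_inv_rev, inv_simple]
    have : q * cs.simple i * cs.simple i * (cs.simple i * q⁻¹) =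
      q * cs.simple i * (cs.simple i * cs.simple i) * q⁻¹ := by group
    rw [this, simple_mul_simple_self, mul_one]
  refine ⟨β, hqw hβ, ?_, hβz, ?_⟩
  · by_contra hcon
    push Not at hcon
    obtain ⟨k, hk⟩ := cs.exists_leftDescent_of_ne_one hq1
    have hkN : cs.simple k ∈ N cs q := by rw [simple_mem_N_iff]; exact hk
    obtain ⟨a, haA, hak⟩ := hab k (hqw hkN)
    exact hak (hstar a (hA a haA) (hcon a haA) hkN)
  · have h1 := br_reflect cs _ (q * cs.simple i) z w i le_rfl hpz (hpq.trans hqw) hzw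
      (by rw [e]; exact hqw hβ) (by rw [e]; exact hβz)
    rw [e] at h1
    exact h1

/-- Left multiplication by `j⁻¹` reverses the interval below `j`. -/
theorem sub_inv {y j : W} (h : N cs y ⊆ N cs j) : N cs (j⁻¹ * y) ⊆ N cs j⁻¹ := by
  rw [N_subset_iff] at h ⊢
  have e : (j⁻¹ * y)⁻¹ * j⁻¹ = y⁻¹ := by group
  have e2 : cs.length (j⁻¹ * y) = cs.length (y⁻¹ * j) := by
    rw [← cs.length_inv (j⁻¹ * y)]
    congr 1; group
  rw [e, e2, length_inv, length_inv]
  omega

/-- Every `x` with `j⁻¹ x ≤ j⁻¹` in Bruhat order is a vertex of a path with labels in the union of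
the `T_L(u)`, if `j` is a minimal upper bound of `U`. -/
theorem path_of_br' {U : Set W} {j : W} (hU : ∀ u ∈ U, N cs u ⊆ N cs j)
    (hab : ∀ i : B, cs.simple i ∈ N cs j⁻¹ → ∃ u ∈ U, cs.simple i ∉ N cs (j⁻¹ * u)) (n : ℕ) :
    ∀ x : W, cs.length x ≤ n → Br cs (j⁻¹ * x) j⁻¹ → x ∈ pathVertices cs U := by
  induction n with
  | zero =>
    intro x hx _
    have : x = 1 := by rw [← cs.length_eq_zero_iff]; omega
    rw [this]; exact Relation.ReflTransGen.refl
  | succ n ih =>
    intro x hx hbr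
    by_cases hx1 : x = 1
    · rw [hx1]; exact Relation.ReflTransGen.refl
    have hne : j⁻¹ * x ≠ j⁻¹ := by simpa using hx1
    have hA : ∀ a ∈ (fun u => j⁻¹ * u) '' U, N cs a ⊆ N cs j⁻¹ := by
      rintro _ ⟨u, hu, rfl⟩
      exact sub_inv cs (hU u hu)
    have hab' : ∀ i : B, cs.simple i ∈ N cs j⁻¹ →
        ∃ a ∈ (fun u => j⁻¹ * u) '' U, cs.simple i ∉ N cs a := by
      intro i hi
      obtain ⟨u, hu, h⟩ := hab i hi
      exact ⟨_, ⟨u, hu, rfl⟩, h⟩
    obtain ⟨r, hrw, ⟨_, ⟨u, huU, rfl⟩, hra⟩, hrz, hrbr⟩ := main_step' cs hA hab' hbr hne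
    set t := j * r * j⁻¹ with ht
    have hrR : cs.IsReflection r := hrw.1
    have htR : cs.IsReflection t := hrR.conj j
    have htt : t * t = 1 := htR.mul_self
    have e0 : j⁻¹ * (t * x) = r * (j⁻¹ * x) := by rw [ht]; group
    have htx : t ∈ N cs x := by
      have h1 := mem_N_mul cs j (j⁻¹ * x) t
      have e1 : j * (j⁻¹ * x) = x := by group
      have e2 : j⁻¹ * t * j = r := by rw [ht]; group
      rw [e1, e2] at h1
      have h2 : t ∈ N cs j := by
        have h3 := mem_N_inv cs (w := j) (t := r)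
        rw [← ht] at h3
        exact h3.1 hrw
      tauto
    have hlabel : t ∈ N cs u := by
      have h1 := mem_N_mul cs (j⁻¹ * u) u⁻¹ r
      have e1 : j⁻¹ * u * u⁻¹ = j⁻¹ := by group
      rw [e1] at h1
      have h2 : (j⁻¹ * u)⁻¹ * r * (j⁻¹ * u) ∈ N cs u⁻¹ := by tauto
      rw [mem_N_inv] at h2
      have e2 : u * ((j⁻¹ * u)⁻¹ * r * (j⁻¹ * u)) * u⁻¹ = t := by rw [ht]; group
      rw [e2] at h2
      exact h2
    have h1 := ih (t * x) (by have := htx.2; omega) (by rw [e0]; exact hrbr)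
    have e3 : t * (t * x) = x := by rw [← mul_assoc, htt, one_mul]
    exact Relation.ReflTransGen.tail h1 ⟨u, huU, t, hlabel, htR, e3.symm, htx.2⟩

/-- A minimal upper bound satisfies the hypothesis of `path_of_br'`. -/
theorem hab_of_min {U : Set W} {j : W} (hU : ∀ u ∈ U, N cs u ⊆ N cs j)
    (hmin : ∀ w, (∀ u ∈ U, N cs u ⊆ N cs w) → cs.length j ≤ cs.length w) (i : B)
    (hi : cs.simple i ∈ N cs j⁻¹) : ∃ u ∈ U, cs.simple i ∉ N cs (j⁻¹ * u) := by
  by_contra hcon
  push Not at hcon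
  have h1 := hmin (j * cs.simple i) (by
    intro u hu t ht
    have h2 := mem_N_mul cs j⁻¹ u (cs.simple i)
    rw [inv_inv] at h2
    have h3 : j * cs.simple i * j⁻¹ ∉ N cs u := by
      have := hcon u hu
      tauto
    have h4 : t ≠ j * cs.simple i * j⁻¹ := by rintro rfl; exact h3 ht
    rw [mem_N_mul_simple]
    have h5 := hU u hu ht
    tauto)
  have e2 : cs.length (j * cs.simple i) = cs.length (cs.simple i * j⁻¹) := by
    rw [← cs.length_inv (j * cs.simple i), mul_inv_rev, inv_simple]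
  have h4 := hi.2
  rw [length_inv] at h4
  omega

/-- Every set has an upper bound. -/
theorem exists_upper (U : Set W) : ∃ w, ∀ u ∈ U, N cs u ⊆ N cs w := by
  obtain ⟨w, hw⟩ := Finite.exists_max cs.length
  refine ⟨w, fun u _ t ht => ⟨ht.1, ?_⟩⟩
  exact lt_of_le_of_ne (hw _) (ht.1.length_mul_right_ne w)

theorem main (U : Set W) :
    ∃ j : W, IsJoin cs U j ∧ (∀ j', IsJoin cs U j' → j' = j) ∧
      leftReflections cs j = {t | cs.IsReflection t} ∩ pathVertices cs U ∧
      pathVertices cs U = {x | BruhatLE cs (j⁻¹ * x) j⁻¹} := by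
  obtain ⟨w₀, hw₀⟩ := exists_upper cs U
  obtain ⟨j, hjU, hjmin⟩ := WellFounded.has_min (measure cs.length).wf
    {w | ∀ u ∈ U, N cs u ⊆ N cs w} ⟨w₀, hw₀⟩
  have hmin : ∀ w, (∀ u ∈ U, N cs u ⊆ N cs w) → cs.length j ≤ cs.length w := by
    intro w hw
    have := hjmin w hw
    exact not_lt.1 this
  have hab := hab_of_min cs hjU hmin
  have hpath : ∀ x, Br cs (j⁻¹ * x) j⁻¹ → x ∈ pathVertices cs U := fun x =>
    path_of_br' cs hjU hab _ x le_rfl
  have hj : IsJoin cs U j := by
    refine ⟨hjU, fun w hw t ht => ?_⟩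
    exact mem_of_br cs ht.1 (br_of_path cs hw (hpath t (br_of_mem cs ht)))
  refine ⟨j, hj, fun j' hj' => ?_, ?_, ?_⟩
  · have h1 : N cs j ⊆ N cs j' := hj.2 j' hj'.1
    have h2 : N cs j' ⊆ N cs j := hj'.2 j hj.1
    rw [N_subset_iff] at h1 h2
    have h3 : cs.length (j⁻¹ * j') = 0 := by omega
    rw [cs.length_eq_zero_iff] at h3
    exact (inv_mul_eq_one.1 h3).symm
  · ext t
    constructor
    · intro ht
      exact ⟨ht.1, hpath t (br_of_mem cs ht)⟩
    · rintro ⟨ht, hV⟩
      exact mem_of_br cs ht (br_of_path cs hjU hV)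
  · ext x
    exact ⟨fun h => br_of_path cs hjU h, fun h => hpath x h⟩

end Pool.Agent.Lib_MP_272625_ins
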